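import Pool.Agent.N401.TB.Fin

/-!
# Tate's form of the Birch–Swinnerton-Dyer conjecture for products of hyperelliptic curves of arbitrary
genera which are quadratic in a parameter

Let `M` be a finitely generated field of characteristic zero and of transcendence degree `d` over `ℚ`,
and let `K = M(w)` be the field of rational functions over `M`.  Let `C_i`, `i < m`, be the hyperelliptic
curves `Y² = a_i(X) w² + b_i(X) w + c_i(X)` over `K`, of any genera `g_i`, where `a_i, b_i, c_i ∈ M[X]`,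
`c_i` is monic of degree `2 g_i + 1`, the degrees of `a_i` and `b_i` are less than `2 g_i + 1`, and
`b_i² - 4 a_i c_i ≠ 0`.  Let `X = C_1 × ... × C_m`.  The theorem is Q1 for `X` over `K`, for every model
of `K` and of the curves, together with the zeros of `Φ₁` on the whole line `Re s = dim 𝒴 = d + 2`.
-/

set_option autoImplicit false

namespace Pool.Agent.Results.MP_9faec4_nt.ConicBundleJacobians

open Polynomial

/-- The polynomial `c(X) + w b(X) + w² a(X)` over `K`. -/
noncomputable def curve {M K : Type} [Field M] [Field K] [Algebra M K] (a b c : M[X]) (w : K) : K[X] :=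
  c.map (algebraMap M K) + C w * b.map (algebraMap M K) + C (w ^ 2) * a.map (algebraMap M K)

/-- Modulo `δ`, the polynomial `a w² + b w + c` is the square of a nonzero polynomial `r w + s`. -/
def IsSplit {M : Type} [Field M] (a b c δ : M[X]) : Prop :=
  ∃ r s : M[X], δ ∣ a - r ^ 2 ∧ δ ∣ b - 2 * r * s ∧ δ ∣ c - s ^ 2 ∧ ¬ (δ ∣ r ∧ δ ∣ s)

/-- The number of the monic irreducible polynomials over which the conic splits. -/
noncomputable def sigma {M : Type} [Field M] (a b c : M[X]) : ℕ :=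
  Nat.card {δ : M[X] // δ.Monic ∧ Irreducible δ ∧ IsSplit a b c δ}

open Classical in
/-- The rank: `σ - 1` if `a` is a nonzero square, and `σ` otherwise. -/
noncomputable def rho {M : Type} [Field M] (a b c : M[X]) : ℕ :=
  sigma a b c - if a ≠ 0 ∧ IsSquare a then 1 else 0

/-- The rank of the class group of the ring `K[X, Y] / (Y² - F(X))`. -/
def ClassGroupHasRank {K : Type} [Field K] (F : K[X]) (n : ℕ) : Prop :=
  ∃ _ : IsDomain (AdjoinRoot (X ^ 2 - C F : K[X][X])),
    Module.rank ℤ (Additive (ClassGroup (AdjoinRoot (X ^ 2 - C F : K[X][X])))) = n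

/-- The number of the points `(x, y)` of the affine curve `y² = g(x)` over the algebraic closure of the
field `k` with `x ^ n = x` and `y ^ n = y`: if `k` has `q` elements and `n = q ^ j`, these are the points
over the extension of `k` of degree `j`. -/
noncomputable def points (k : Type) [Field k] (g : k[X]) (n : ℕ) : ℕ :=
  Nat.card {P : AlgebraicClosure k × AlgebraicClosure k //
    P.1 ^ n = P.1 ∧ P.2 ^ n = P.2 ∧ P.2 ^ 2 = aeval P.1 g}

/-- The norm `q_y` of a closed point: the number of the elements of the residue field. -/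
noncomputable def norm {R : Type} [CommRing R] (y : MaximalSpectrum R) : ℕ := Nat.card (R ⧸ y.asIdeal)

/-- The trace on `H¹` of the `j`-th power of the geometric Frobenius of the fibre of the curve
`Y² = G(X)`: the number `q_y ^ j - #(affine points of the fibre over the extension of degree j)`. -/
noncomputable def traceOne {R : Type} [CommRing R] (G : R[X]) (y : MaximalSpectrum R) (j : ℕ) : ℝ :=
  letI : Field (R ⧸ y.asIdeal) := Ideal.Quotient.field y.asIdeal
  ((norm y ^ j : ℕ) : ℝ) - points (R ⧸ y.asIdeal) (G.map (Ideal.Quotient.mk y.asIdeal)) (norm y ^ j)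

/-- The local factor `P_{y,1}(T)⁻¹ = exp (∑_{j ≥ 1} t_j T ^ j / j)` of the curve `Y² = G(X)`. -/
noncomputable def factor {R : Type} [CommRing R] (G : R[X]) (y : MaximalSpectrum R) (T : ℂ) : ℂ :=
  Complex.exp (∑' j : ℕ, (traceOne G y (j + 1) : ℂ) / ((j + 1 : ℕ) : ℂ) * T ^ (j + 1))

/-- **Tate's conjecture over `M(w)` for the products of the hyperelliptic curves
`Y² = a_i(X) w² + b_i(X) w + c_i(X)` of arbitrary genera, for an arbitrary finitely generated field `M` of
characteristic zero.** -/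
theorem result {M : Type} [Field M] [CharZero M]
    (hM : ∃ S : Finset M, Subfield.closure (S : Set M) = ⊤) {d : ℕ} (hd : Algebra.trdeg ℚ M = d)
    {K : Type} [Field K] [CharZero K] [Algebra M K] {w : K} (hw : Transcendental M w)
    (hK : IntermediateField.adjoin M {w} = ⊤)
    {m : ℕ} {g : Fin m → ℕ} {a b c : Fin m → M[X]} (hc : ∀ i, (c i).Monic)
    (hcd : ∀ i, (c i).natDegree = 2 * g i + 1) (ha : ∀ i, (a i).natDegree < 2 * g i + 1)
    (hb : ∀ i, (b i).natDegree < 2 * g i + 1) (hΔ : ∀ i, b i ^ 2 - 4 * a i * c i ≠ 0)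
    (hs : ∀ i, (curve (a i) (b i) (c i) w).Separable) :
    Algebra.trdeg ℚ K = (d + 1 : ℕ) ∧
    (∀ i, (curve (a i) (b i) (c i) w).Monic ∧
      (curve (a i) (b i) (c i) w).natDegree = 2 * g i + 1) ∧
    -- the algebraic side: the rank of `J_i(K)`
    (∀ i, Finite {δ : M[X] // δ.Monic ∧ Irreducible δ ∧ IsSplit (a i) (b i) (c i) δ}) ∧
    (∀ i, a i ≠ 0 ∧ IsSquare (a i) → 1 ≤ sigma (a i) (b i) (c i)) ∧
    (∀ i, ClassGroupHasRank (curve (a i) (b i) (c i) w) (rho (a i) (b i) (c i))) ∧
    -- there are models with good reduction everywhere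
    (∃ (R : Subalgebra ℤ K) (G : Fin m → R[X]), Algebra.FiniteType ℤ R ∧ IsFractionRing R K ∧
      (∀ i, (G i).Monic ∧ (G i).map (algebraMap R K) = curve (a i) (b i) (c i) w) ∧
      ∀ y : MaximalSpectrum R, (2 : R) ∉ y.asIdeal ∧
        ∀ i, ((G i).map (Ideal.Quotient.mk y.asIdeal)).Separable) ∧
    -- the analytic side, for every model
    ∀ (R : Type) [CommRing R] [IsDomain R] [Algebra.FiniteType ℤ R] [Algebra R K]
      [IsFractionRing R K] (G : Fin m → R[X]), (∀ i, (G i).Monic) →
      (∀ i, (G i).map (algebraMap R K) = curve (a i) (b i) (c i) w) →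
      ∀ N : R, N ≠ 0 → ∃ (U : Set ℂ) (Φ : ℂ → ℂ),
        IsOpen U ∧ {s : ℂ | ((d + 2 : ℕ) : ℝ) ≤ s.re} ⊆ U ∧ DifferentiableOn ℂ Φ U ∧
        (∀ s : ℂ, ((d + 2 : ℕ) : ℝ) + 1 / 2 < s.re →
          HasProd (fun y : {y : MaximalSpectrum R // N ∉ y.asIdeal} =>
            ∏ i, factor (G i) y.1 ((norm y.1 : ℂ) ^ (-s))) (Φ s)) ∧
        (∀ s : ℂ, ((d + 2 : ℕ) : ℝ) ≤ s.re → s ≠ ((d + 2 : ℕ) : ℂ) → Φ s ≠ 0) ∧
        analyticOrderAt Φ ((d + 2 : ℕ) : ℂ) = ((∑ i, rho (a i) (b i) (c i) : ℕ) : ℕ∞) := by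
  classical
  have hF : ∀ i, curve (a i) (b i) (c i) w = Pool.Agent.R410.CB.fq (a i) (b i) (c i) w := by
    intro i
    rw [Pool.Agent.R410.CB.fq_eq]
    rfl
  have hodd : ∀ i, Odd (c i).natDegree := fun i => by rw [hcd i]; exact ⟨g i, rfl⟩
  have hac : ∀ i, (a i).natDegree < (c i).natDegree := fun i => by rw [hcd i]; exact ha i
  have hbc : ∀ i, (b i).natDegree < (c i).natDegree := fun i => by rw [hcd i]; exact hb i
  have hnd : ∀ i, (curve (a i) (b i) (c i) w).natDegree = 2 * g i + 1 := fun i => by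
    rw [hF i, Pool.Agent.R410.CB.deg_fq (hac i) (hbc i), hcd i]
  have hmon : ∀ i, (curve (a i) (b i) (c i) w).Monic := by
    intro i
    rw [Monic, leadingCoeff, hnd i]
    unfold curve
    rw [coeff_add, coeff_add, coeff_C_mul, coeff_C_mul, coeff_map, coeff_map, coeff_map,
      coeff_eq_zero_of_natDegree_lt (ha i), coeff_eq_zero_of_natDegree_lt (hb i), ← hcd i]
    have : (c i).coeff (c i).natDegree = 1 := hc i
    rw [this, map_one, map_zero, mul_zero, mul_zero, add_zero, add_zero]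
  have hSp : ∀ (i : Fin m) (δ : M[X]), IsSplit (a i) (b i) (c i) δ ↔
      ∃ r s : M[X], Pool.Agent.R410.CB.Spl (a i) (b i) (c i) δ r s := by
    intro i δ
    constructor
    · rintro ⟨r, s, h1, h2, h3, h4⟩
      exact ⟨r, s, h1, h2, h3, h4⟩
    · rintro ⟨r, s, h⟩
      exact ⟨r, s, h.ha, h.hb, h.hc, h.ne⟩
  let e : ∀ i, {δ : M[X] // δ.Monic ∧ Irreducible δ ∧ IsSplit (a i) (b i) (c i) δ} ≃
      Pool.Agent.R410.NG.SplT (a i) (b i) (c i) := fun i =>
    Equiv.subtypeEquivRight fun δ => by rw [hSp i δ]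
  have hσ : ∀ i, sigma (a i) (b i) (c i) =
      Nat.card (Pool.Agent.R410.NG.SplT (a i) (b i) (c i)) := fun i => Nat.card_congr (e i)
  have hfin : ∀ i, Finite (Pool.Agent.R410.NG.SplT (a i) (b i) (c i)) := fun i =>
    Pool.Agent.R410.NG.finite_spl two_ne_zero (hΔ i)
  have hrk := fun i => Pool.Agent.R410.NG.rank_cb' hw hK (hodd i) (hac i) (hbc i)
    (by rw [← hF i]; exact (hs i).squarefree) (hΔ i)
  have hρ : ∀ i, ((Nat.card (Pool.Agent.R410.NG.SplT (a i) (b i) (c i)) : ℤ) -
      if a i ≠ 0 ∧ IsSquare (a i) then 1 else 0) = ((rho (a i) (b i) (c i) : ℕ) : ℤ) := by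
    intro i
    unfold rho
    rw [hσ i]
    by_cases h : a i ≠ 0 ∧ IsSquare (a i)
    · rw [if_pos h, if_pos h, Nat.cast_sub ((hrk i).2 h)]
      push_cast
      rfl
    · rw [if_neg h, if_neg h, Nat.sub_zero, sub_zero]
  refine ⟨Pool.Agent.R410.NG.trdeg_line hd hw hK, fun i => ⟨hmon i, hnd i⟩,
    fun i => Finite.of_equiv _ (e i).symm, ?_, ?_, ?_, ?_⟩
  · intro i
    rw [hσ i]
    exact (hrk i).2
  · intro i
    unfold ClassGroupHasRank rho
    rw [hσ i, hF i]
    exact (hrk i).1
  · exact Pool.Agent.N401.TB.exists_good_model (Pool.Agent.N401.TB.fg_line' hM hK)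
      (fun i => curve (a i) (b i) (c i) w) hmon hs
  · intro R _ _ _ _ _ G hG hGK N hN
    obtain ⟨U, Φ, h1, h2, h3, h4, h5, h6⟩ := Pool.Agent.N401.TB.product_line
      (Y := {y : MaximalSpectrum R // N ∉ y.asIdeal}) (n := d + 2)
      (c := ((d + 2 : ℕ) : ℝ) + 1 / 2)
      (fun i y s => factor (G i) y.1 ((norm y.1 : ℂ) ^ (-s))) (fun i => rho (a i) (b i) (c i)) (by
        intro i
        obtain ⟨U, Θ, h1, h2, h3, h4, h5⟩ := Pool.Agent.N401.TB.euler_cb hM hd hw hK (hodd i)
          (hac i) (hbc i) (hΔ i) (hG i) (by rw [hGK i, hF i]) hN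
        refine ⟨U, Θ, h1, ?_, h3, ?_, ?_⟩
        · intro s hs
          refine h2 ?_
          rw [Set.mem_ofPred_eq] at hs ⊢
          push_cast at hs ⊢
          linarith
        · intro s hs
          refine h4 s ?_
          push_cast at hs ⊢
          linarith
        · intro s hs
          have h6 := h5 s (by push_cast at hs ⊢; linarith)
          rw [hρ i] at h6
          have e1 : (((d + 1 : ℕ) : ℂ) + 1) = ((d + 2 : ℕ) : ℂ) := by
            push_cast
            ring
          rw [e1] at h6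
          exact h6)
    exact ⟨U, Φ, h1, h2, h3, h4, h5, h6⟩

end Pool.Agent.Results.MP_9faec4_nt.ConicBundleJacobians
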