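import Pool.Agent.N863.PE.Pen
import Pool.Agent.N863.PE.Exf

/-!
# Tate's form of the Birch–Swinnerton-Dyer conjecture: elliptic curves of linear pencils over the function fields of products of hyperelliptic curves of linear pencils

Let `M` be a finitely generated field of characteristic zero and of transcendence degree `d` over `ℚ`, and
let `K = M(w)` be the field of rational functions over `M`.  Let `E : Y² = c₀(X) + w b₀(X)` be an elliptic
curve over `K`, where `b₀, c₀ ∈ M[X]`, `c₀` is monic of degree `3`, and `b₀ ≠ 0` has degree at most `2`, and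
let `C_i : y² = c_i(x) + w b_i(x)`, for `i < r`, be hyperelliptic curves over `K` of arbitrary genera, where
`b_i, c_i ∈ M[X]`, `c_i` is monic of odd degree, `b_i ≠ 0` and `deg b_i < deg c_i`.  All these polynomials
are separable over `K`.  Let `L = K(x_1, y_1, ..., x_r, y_r)` be the function field of the product
`C_1 × ... × C_r` over `K`, that is, of the fibre product over the line of the `r` surfaces (over `M`).

We prove Tate's conjecture (Q1) for `X = E` over `L`, with `n = d + r + 2 = trdeg L + 1`, the dimension of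
the models.

* The rank of `E(L)` is finite and equal to `ρ + ∑_i (ρ_i - ρ)`, where `ρ ≤ ρ_i`.  Here `ρ` is the number of
  the monic irreducible divisors `δ` of `b₀` in `M[X]` such that `c₀` is a nonzero square modulo `δ`, and
  `ρ_i = σ_i - ε_i`, for the function field `M(x)`, where `σ_i` is the number of the
  monic irreducible `δ ∈ M(x)[X]` such that `a T² + c`, with `a = b₀(X) / b_i(x)` and
  `c = c₀(X) - (c_i(x) / b_i(x)) b₀(X)`, is modulo `δ` the square of a nonzero polynomial `r T + s`, and
  `ε_i = 1` if `a` is a square, and `ε_i = 0` otherwise.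
* For each integral domain `R`, finitely generated over `ℤ` and with the field of fractions `L`, and each
  Weierstrass equation `W` over `R` which gives `E` over `L`, the Euler product over the closed points of
  `Spec R` at which `W` has good reduction converges for `Re s > n + 1/2`, it continues to an analytic
  function for `Re s > n` which is meromorphic at `s = n`, and its order of vanishing there is the rank of
  `E(L)`.
-/

set_option autoImplicit false

namespace Pool.Agent.Results.MP_9faec4_nt.LinearPencilFibreProducts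

open Polynomial
open Pool.Agent.TH958.An (ay qy)

/-- The polynomial `c(X) + w b(X)` over `K`. -/
noncomputable def pencil {M K : Type} [Field M] [Field K] [Algebra M K] (b c : M[X]) (w : K) : K[X] :=
  c.map (algebraMap M K) + C w * b.map (algebraMap M K)

/-- The curve `Y² = X³ + F_2 X² + F_1 X + F_0`, where the `F_i` are the coefficients of `F`. -/
def weierstrass {K : Type} [Field K] (F : K[X]) : WeierstrassCurve K :=
  ⟨0, F.coeff 2, 0, F.coeff 1, F.coeff 0⟩

/-- `L = K(x_1, y_1, ..., x_r, y_r)` is the function field of the product of the curves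
`y_i² = F_i(x_i)`. -/
structure IsFunctionField {K L : Type} [Field K] [Field L] [Algebra K L] {r : ℕ} (F : Fin r → K[X])
    (x y : Fin r → L) : Prop where
  indep : AlgebraicIndependent K x
  curve : ∀ i, y i ^ 2 = aeval (x i) (F i)
  gen : IntermediateField.adjoin K (Set.range x ∪ Set.range y) = ⊤

/-- Modulo `δ`, the polynomial `a T² + b T + c` is the square of a nonzero polynomial `r T + s`. -/
def IsSplit {M : Type} [Field M] (a b c δ : M[X]) : Prop :=
  ∃ r s : M[X], δ ∣ a - r ^ 2 ∧ δ ∣ b - 2 * r * s ∧ δ ∣ c - s ^ 2 ∧ ¬ (δ ∣ r ∧ δ ∣ s)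

/-- The number of the monic irreducible polynomials over which the conic splits. -/
noncomputable def sigma {M : Type} [Field M] (a b c : M[X]) : ℕ :=
  Nat.card {δ : M[X] // δ.Monic ∧ Irreducible δ ∧ IsSplit a b c δ}

open Classical in
/-- `σ - 1` if `a` is a nonzero square, and `σ` otherwise. -/
noncomputable def rho {M : Type} [Field M] (a b c : M[X]) : ℕ :=
  sigma a b c - if a ≠ 0 ∧ IsSquare a then 1 else 0

/-- The polynomial `b(x)⁻¹ b'(X)` over `M(x)`. -/
noncomputable def overB {M : Type} [Field M] (b b' : M[X]) : (RatFunc M)[X] :=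
  C (aeval (RatFunc.X : RatFunc M) b)⁻¹ * b'.map (algebraMap M (RatFunc M))

/-- The polynomial `c'(X) - (c(x) / b(x)) b'(X)` over `M(x)`. -/
noncomputable def overC {M : Type} [Field M] (b c b' c' : M[X]) : (RatFunc M)[X] :=
  c'.map (algebraMap M (RatFunc M)) -
    C (aeval (RatFunc.X : RatFunc M) c * (aeval (RatFunc.X : RatFunc M) b)⁻¹) *
      b'.map (algebraMap M (RatFunc M))

/-- The number `ρ` for `Y² = c₀(X) + w b₀(X)` over `M(w)`. -/
noncomputable def rhoBase {M : Type} [Field M] (b₀ c₀ : M[X]) : ℕ := rho 0 b₀ c₀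

/-- The number `ρ_i` for `Y² = c₀(X) + w b₀(X)` over the function field of `y² = c(x) + w b(x)`. -/
noncomputable def rhoCurve {M : Type} [Field M] (b₀ c₀ b c : M[X]) : ℕ :=
  rho (overB b b₀) 0 (overC b c b₀ c₀)

open scoped Classical in
/-- **The rank part of Tate's conjecture for the elliptic curves of linear pencils over the function fields
of the products of arbitrary many hyperelliptic curves of linear pencils over `M(w)`, for an arbitrary
finitely generated field `M` of characteristic zero.** -/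
theorem result {M : Type} [Field M] [CharZero M]
    (hM : ∃ S : Finset M, Subfield.closure (S : Set M) = ⊤) {d : ℕ} (hd : Algebra.trdeg ℚ M = d)
    {K : Type} [Field K] [CharZero K] [Algebra M K] {w : K} (hw : Transcendental M w)
    (hK : IntermediateField.adjoin M {w} = ⊤)
    {b₀ c₀ : M[X]} (hc₀ : c₀.Monic) (h3 : c₀.natDegree = 3) (hb₀ : b₀ ≠ 0 ∧ b₀.natDegree ≤ 2)
    (hs₀ : (pencil b₀ c₀ w).Separable)
    {r : ℕ} {b c : Fin r → M[X]} (hc : ∀ i, (c i).Monic ∧ Odd (c i).natDegree)
    (hb : ∀ i, b i ≠ 0 ∧ (b i).natDegree < (c i).natDegree)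
    (hs : ∀ i, (pencil (b i) (c i) w).Separable) :
    -- the function field exists
    (∃ (L : Type) (_ : Field L) (_ : Algebra K L) (x y : Fin r → L),
      IsFunctionField (fun i => pencil (b i) (c i) w) x y) ∧
    ∀ (L : Type) [Field L] [CharZero L] [Algebra K L] (x y : Fin r → L),
      IsFunctionField (fun i => pencil (b i) (c i) w) x y →
      Algebra.trdeg ℚ L = (d + r + 1 : ℕ) ∧ (weierstrass (pencil b₀ c₀ w)).Δ ≠ 0 ∧
      -- the rank
      (∀ i, rhoBase b₀ c₀ ≤ rhoCurve b₀ c₀ (b i) (c i)) ∧
      Module.rank ℤ ((weierstrass (pencil b₀ c₀ w)).map (algebraMap K L)).toAffine.Point =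
        ((rhoBase b₀ c₀ + ∑ i, (rhoCurve b₀ c₀ (b i) (c i) - rhoBase b₀ c₀) : ℕ) : Cardinal) ∧
      -- a model with good reduction everywhere exists
      (∃ (R : Subalgebra ℤ L) (W : WeierstrassCurve R), Algebra.FiniteType ℤ R ∧
        IsFractionRing R L ∧
        W.map (algebraMap R L) = (weierstrass (pencil b₀ c₀ w)).map (algebraMap K L) ∧
        IsUnit W.Δ) ∧
      -- the Euler product, for every model
      ∀ (R : Type) [CommRing R] [IsDomain R] [Algebra.FiniteType ℤ R] [Algebra R L]
        [IsFractionRing R L] (W : WeierstrassCurve R),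
        W.map (algebraMap R L) = (weierstrass (pencil b₀ c₀ w)).map (algebraMap K L) →
        ∃ Φ : ℂ → ℂ,
          (∀ s : ℂ, ((d + r + 2 : ℕ) : ℝ) + 1 / 2 < s.re →
            HasProd (fun y : {y : MaximalSpectrum R // W.Δ ∉ y.asIdeal} =>
              (1 - (ay W y.1 : ℂ) * (qy y.1 : ℂ) ^ (-s) + (qy y.1 : ℂ) ^ (1 - 2 * s))⁻¹) (Φ s)) ∧
          DifferentiableOn ℂ Φ {s : ℂ | ((d + r + 2 : ℕ) : ℝ) < s.re} ∧
          MeromorphicAt Φ ((d + r + 2 : ℕ) : ℂ) ∧
          meromorphicOrderAt Φ ((d + r + 2 : ℕ) : ℂ) =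
            (((rhoBase b₀ c₀ + ∑ i, (rhoCurve b₀ c₀ (b i) (c i) - rhoBase b₀ c₀) : ℕ) : ℤ) :
              WithTop ℤ) := by
  have hF : ∀ b c : M[X], pencil b c w = Pool.Agent.R410.CB.fq 0 b c w := by
    intro b c
    rw [Pool.Agent.R410.CB.fq_eq, Pool.Agent.Y707.PC.up_def, Pool.Agent.Y707.PC.up_def,
      Pool.Agent.Y707.PC.up_def, Polynomial.map_zero, mul_zero, add_zero]
    rfl
  have hodd₀ : Odd c₀.natDegree := by rw [h3]; decide
  have hb₀' : b₀.natDegree < 3 := by have := hb₀.2; omega
  have h0c : (0 : M[X]).natDegree < c₀.natDegree := by rw [natDegree_zero, h3]; norm_num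
  have hnd : (pencil b₀ c₀ w).natDegree = 3 := by
    rw [hF, Pool.Agent.R410.CB.deg_fq h0c (by rw [h3]; exact hb₀'), h3]
  have hmon : (pencil b₀ c₀ w).Monic := by
    rw [Monic, leadingCoeff, hnd]
    unfold pencil
    rw [coeff_add, coeff_C_mul, coeff_map, coeff_map, coeff_eq_zero_of_natDegree_lt hb₀', ← h3]
    have : c₀.coeff c₀.natDegree = 1 := hc₀
    rw [this, map_one, map_zero, mul_zero, add_zero]
  have hcb : Pool.Agent.N863.PE.cb (weierstrass (pencil b₀ c₀ w)) =
      Pool.Agent.R410.CB.fq 0 b₀ c₀ w := by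
    rw [← hF]
    exact (Pool.Agent.R410.BA.monic_cubic _ hmon hnd).symm
  have hSp : ∀ {L : Type} [Field L] (a b c δ : L[X]), IsSplit a b c δ ↔
      ∃ r s : L[X], Pool.Agent.R410.CB.Spl a b c δ r s := by
    intro L _ a b c δ
    constructor
    · rintro ⟨r, s, h1, h2, h3, h4⟩
      exact ⟨r, s, h1, h2, h3, h4⟩
    · rintro ⟨r, s, h⟩
      exact ⟨r, s, h.ha, h.hb, h.hc, h.ne⟩
  have hσ : ∀ {L : Type} [Field L] (a b c : L[X]), sigma a b c =
      Nat.card (Pool.Agent.R410.NG.SplT a b c) := fun {L} _ a b c =>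
    Nat.card_congr (Equiv.subtypeEquivRight fun δ => by rw [hSp a b c δ])
  have hn1 : rhoBase b₀ c₀ = Pool.Agent.R410.NG.nn1 b₀ c₀ := by
    unfold rhoBase rho Pool.Agent.R410.NG.nn1
    rw [if_neg (fun h => h.1 rfl), Nat.sub_zero, hσ]
  have hn2 : ∀ i, rhoCurve b₀ c₀ (b i) (c i) =
      Pool.Agent.R410.NG.nn2 (RatFunc.X : RatFunc M) (b i) (c i) b₀ c₀ := by
    intro i
    unfold rhoCurve rho
    rw [hσ]
    rfl
  have ht : Transcendental M (RatFunc.X : RatFunc M) := by
    rw [transcendental_iff_injective]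
    intro p q h
    apply RatFunc.algebraMap_injective M
    rwa [RatFunc.aeval_X_left_eq_algebraMap, RatFunc.aeval_X_left_eq_algebraMap] at h
  have hL : IntermediateField.adjoin M {(RatFunc.X : RatFunc M)} = ⊤ := RatFunc.adjoin_X
  have hcL : CharZero (RatFunc M) := charZero_of_injective_algebraMap
    (algebraMap M (RatFunc M)).injective
  have hsep₀ : (Pool.Agent.R410.CB.fq 0 b₀ c₀ w).Separable := by
    rw [← hF]
    exact hs₀
  have hsep : ∀ i, (Pool.Agent.R410.CB.fq 0 (b i) (c i) w).Separable := fun i => by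
    rw [← hF]
    exact hs i
  have hdi : ∀ i, (Pool.Agent.R410.CB.fq 0 (b i) (c i) w).natDegree = (c i).natDegree := fun i =>
    Pool.Agent.R410.CB.deg_fq (by rw [natDegree_zero]; exact (hc i).2.pos) (hb i).2
  refine ⟨?_, ?_⟩
  · obtain ⟨L, i1, i2, x, y, h1, h2, h3⟩ := Pool.Agent.N863.PE.exists_ffc
      (fun i => pencil (b i) (c i) w)
    exact ⟨L, i1, i2, x, y, h1, h2, h3⟩
  · intro L _ _ _ x y hfun
    have hx := hfun.indep
    have hy : ∀ i, y i ^ 2 = aeval (x i) (Pool.Agent.R410.CB.fq 0 (b i) (c i) w) := fun i => by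
      rw [← hF]
      exact hfun.curve i
    have htop := hfun.gen
    have hpos : ∀ i, 0 < (Pool.Agent.R410.CB.fq 0 (b i) (c i) w).natDegree := fun i => by
      rw [hdi i]
      exact (hc i).2.pos
    have hsE : (Pool.Agent.N863.PE.cb (weierstrass (pencil b₀ c₀ w))).Separable := by
      rw [hcb]
      exact hsep₀
    have hΔ : (weierstrass (pencil b₀ c₀ w)).Δ ≠ 0 := by
      rw [Pool.Agent.N863.PE.disc_eq _ rfl rfl]
      exact mul_ne_zero (by norm_num) (Pool.Agent.N863.PE.dsc_ne _ hsE)
    have hKF : Pool.Agent.R410.LW.FG K := Pool.Agent.R410.NG.fg_line hM hK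
    have htrK := Pool.Agent.R410.NG.trdeg_line hd hw hK
    have htrL := Pool.Agent.N863.PE.trdeg_rat htrK hx hpos hsep hy htop
    obtain ⟨r1, r2⟩ := Pool.Agent.N863.PE.pen_rank hM hd hw hK ht hL hb₀.1 h3 hb₀'
      (fun i => (hb i).1) (fun i => (hc i).2) (fun i => (hb i).2) hsep hsep₀ hx hy htop
      (weierstrass (pencil b₀ c₀ w)) rfl rfl hcb
    refine ⟨by rw [htrL]; congr 1; omega, hΔ, ?_, ?_, ?_, ?_⟩
    · intro i
      rw [hn1, hn2]
      exact r1 i
    · rw [hn1]
      simp only [hn2]
      exact r2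
    · refine Pool.Agent.R410.BA.exists_model (Pool.Agent.N863.PE.fg_L hKF htop) _ ?_
      rw [WeierstrassCurve.map_Δ]
      exact (_root_.map_ne_zero _).2 hΔ
    · intro R _ _ _ _ _ W hW
      obtain ⟨Φ, p1, p2, p3, p4⟩ := Pool.Agent.N863.PE.pen_euler hM hd hw hK ht hL hb₀.1 h3 hb₀'
        (fun i => (hb i).1) (fun i => (hc i).2) (fun i => (hb i).2) (fun i => (hc i).1) hsep hsep₀
        hx hy htop (weierstrass (pencil b₀ c₀ w)) rfl rfl hcb W hW
      have e1 : (((d + 1 + r : ℕ) : ℂ) + 1) = ((d + r + 2 : ℕ) : ℂ) := by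
        push_cast
        ring
      rw [e1] at p3 p4
      refine ⟨Φ, ?_, ?_, p3, ?_⟩
      · intro s hs
        refine p1 s ?_
        push_cast at hs ⊢
        linarith
      · refine p2.mono ?_
        intro t ht
        rw [Set.mem_ofPred_eq] at ht ⊢
        push_cast at ht ⊢
        linarith
      · rw [p4, hn1]
        simp only [hn2]
        congr 1
        push_cast
        congr 1
        refine Finset.sum_congr rfl fun i _ => ?_
        rw [Nat.cast_sub (r1 i)]

end Pool.Agent.Results.MP_9faec4_nt.LinearPencilFibreProducts
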