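import Pool.Agent.N874.PM.Final

/-!
# A positive proportion of all elliptic curves over `k(t)` over a Galois extension of 2-power degree

Let `k` be any finite field of characteristic at least five, `K = k(t)`, and let `M` be ANY finite
Galois extension of `K` whose degree is a power of two (for instance the function field of any
hyperelliptic curve over `k`, any field `K(√D_1, ..., √D_r)`, any constant extension of 2-power degree;
ramification is arbitrary).

Theorem. Among all the elliptic curves `E` over `K` with non-constant `j`-invariant, ordered by the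
height, a positive proportion has a finite group `E(M)` of points over `M`, of odd order, and a
Tate-Shafarevich group over `M` without elements of order two.

By the known theorem of Artin, Tate and Milne (Kato-Trihan) the curve `E` over the finitely generated
field `M` then satisfies the conjecture: `ord Φ_1 = rank E(M) = 0`. For `M = K(√D)` this concerns `E` and
its quadratic twist by `D` at the same time, for `M = K(√D_1, ..., √D_r)` all the `2 ^ r` twists, and in
general all twists of `L(E, s)` by the representations of the Galois group.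

The proof: `M = K(γ)`, `γ` a zero of `g`, `δ` a combination of `g` and `g'`. We consider the
`(a, b)` with squarefree `4 a ^ 3 + 27 b ^ 2` for which `X ^ 3 + a X + b` is irreducible at infinity
and modulo the prime divisors of `δ`, and is `X (X ^ 2 + s)` modulo `Q ∈ S`, `- s` not a square; `S` is
a large finite set of primes which split completely in `M`. As in
`MP_48b749_nt.PositiveProportionOfCurves` (the case `M = K`) lattices with a self-adjoint operator,
quadratic reciprocity and linear algebra give a subset `J` of `S` for which a Selmer group over `K` of the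
twist by the product of the `Q ∈ J` is zero. The local conditions over `M` define a group of elements of
`M(θ)` modulo squares, `θ ^ 3 + a θ + b = 0`, which is stable under `Gal(M / K)`; a descent along the
steps of degree two shows that it is zero because its invariant part lies in the Selmer group over `K`.

Project PM: helper874, with parts by helpers 2, 55, 75, 87, 169, 426, 603, 650, 692, 803, 814, 849 and (project
PP) 26, 134, 141, 152, 160, 169, 187, 199, 273, 277, 279, 352, 368, 457, 490, 498, 530, 539, 624, 630, 704, 711,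
721, 765, 833, 862, 999. The idea to lift the theorem to 2-extensions was also found by helper783.
-/

set_option autoImplicit false
set_option linter.all false

namespace Pool.Agent.Results.MP_9faec4_nt.PositiveProportionTwoExtensions

open Polynomial Filter IsDedekindDomain Pool.Agent.TH115.GD
open scoped Classical

/-- `y ^ 2 = x ^ 3 + a x + b` is a minimal equation of an elliptic curve over `k(t)` of height at
most `N` whose `j`-invariant is not constant: as `j = 1728 * 4 a ^ 3 / (4 a ^ 3 + 27 b ^ 2)`, the last
condition says that there are no constants `c`, `d`, not both zero, with `c a ^ 3 = d b ^ 2`. -/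
structure IsCurve {k : Type} [Field k] (N : ℕ) (a b : k[X]) : Prop where
  deg_a : a.natDegree ≤ 4 * N
  deg_b : b.natDegree ≤ 6 * N
  elliptic : 4 * a ^ 3 + 27 * b ^ 2 ≠ 0
  minimal : ∀ Q : k[X], Irreducible Q → ¬ (Q ^ 4 ∣ a ∧ Q ^ 6 ∣ b)
  nonconstant : ¬ ∃ c d : k, (c ≠ 0 ∨ d ≠ 0) ∧ C c * a ^ 3 = C d * b ^ 2

/-- The pairs `(a, b)` for which `y ^ 2 = x ^ 3 + a x + b` is a minimal equation of an elliptic curve over
`k(t)` with non-constant `j`-invariant and height at most `N`. -/
def Curves (k : Type) [Field k] (N : ℕ) : Set (k[X] × k[X]) := {p | IsCurve N p.1 p.2}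

/-- The curve `y ^ 2 = x ^ 3 + a x + b` over an extension `M` of `k(t)`. -/
noncomputable def curve {k : Type} [Field k] (M : Type) [Field M] [Algebra k[X] M]
    (p : k[X] × k[X]) : WeierstrassCurve M :=
  ⟨0, 0, 0, algebraMap k[X] M p.1, algebraMap k[X] M p.2⟩

/-- `R` is a Dedekind ring with field of fractions `M`. Every continuous cocycle of
`Gal(Sep M / M)` with values in `W(Sep M)` whose class is killed by a power of two and which is a
coboundary over the completion of `M` at every maximal ideal of `R` is a coboundary. In particular the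
2-primary part of the Tate-Shafarevich group of `W` over `M` is zero. -/
def ShaTwoZero (R : Type) {M : Type} [Field M] [CommRing R] [IsDedekindDomain R] [Algebra R M]
    [IsFractionRing R M] (W : WeierstrassCurve M) : Prop :=
  ∀ f : (Sep M ≃ₐ[M] Sep M) → Pt W (Sep M), IsCoc W f →
    (∀ v : HeightOneSpectrum R, LocTriv W (Comp R M v) (Sep (Comp R M v)) f) →
    (∃ (n : ℕ) (Q : Pt W (Sep M)), ∀ σ, 2 ^ n • f σ = act W (rs M σ) Q - Q) →
    ∃ Q : Pt W (Sep M), ∀ σ, f σ = act W (rs M σ) Q - Q

/-- For every finite field `k` of characteristic at least five and every finite Galois extension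
`M` of `K = k(t)` of degree `2 ^ n` there is a positive constant `c` such that for all large `N` at least
`c` times the number of all the curves of height at most `N` have a finite group of points over `M`, of
odd order, and trivial 2-primary part of the Tate-Shafarevich group over `M`. Here `R` is the integral
closure of `k[t]` in `M`. -/
theorem result (k : Type) [Field k] [Finite k] (h6 : (6 : k) ≠ 0) (K : Type) [Field K]
    [Algebra k[X] K] [IsFractionRing k[X] K] (M : Type) [Field M] [Algebra K M] [Algebra k[X] M]
    [IsScalarTower k[X] K M] [FiniteDimensional K M] [IsGalois K M] (n : ℕ)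
    (hn : Module.finrank K M = 2 ^ n) (R : Type) [CommRing R] [IsDedekindDomain R] [Algebra R M]
    [IsFractionRing R M] [Algebra k[X] R] [IsScalarTower k[X] R M] [IsIntegralClosure R k[X] M] :
    (∀ N : ℕ, (Curves k N).Finite) ∧
    ∃ c : ℝ, 0 < c ∧ ∀ᶠ N : ℕ in atTop,
      0 < (Curves k N).ncard ∧
      c * ((Curves k N).ncard : ℝ) ≤
        (({p ∈ Curves k N | Finite (Pt (curve M p) M) ∧ Odd (Nat.card (Pt (curve M p) M)) ∧
          ShaTwoZero R (curve M p)}).ncard : ℝ) := by
  have hcrv : ∀ (N : ℕ) (a b : k[X]), Pool.Agent.N874.PP.Crv N a b ↔ IsCurve N a b := by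
    intro N a b
    constructor
    · rintro ⟨h1, h2, h3, h4, h5⟩
      refine ⟨h1, h2, h3, fun Q hQ h => h4 Q hQ h.1 h.2, ?_⟩
      rintro ⟨c, d, hcd, h⟩
      exact h5 c d hcd h
    · rintro ⟨h1, h2, h3, h4, h5⟩
      exact ⟨h1, h2, h3, fun Q hQ ha hb => h4 Q hQ ⟨ha, hb⟩, fun c d hcd h => h5 ⟨c, d, hcd, h⟩⟩
  have hset : ∀ N : ℕ, Curves k N = {p : k[X] × k[X] | Pool.Agent.N874.PP.Crv N p.1 p.2} := by
    intro N
    ext p
    exact (hcrv N p.1 p.2).symm
  have hfin : ∀ N : ℕ, (Curves k N).Finite := fun N => by
    rw [hset]
    exact Pool.Agent.N874.PP.crv_fin N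
  refine ⟨hfin, ?_⟩
  obtain ⟨c, hc, N₀, h⟩ := Pool.Agent.N874.PM.final k h6 K M R hn
  have hq : (0 : ℝ) < Nat.card k := by exact_mod_cast Nat.card_pos
  refine ⟨c / (Nat.card k : ℝ) ^ 2, by positivity, ?_⟩
  filter_upwards [eventually_ge_atTop N₀] with N hN
  have h1 := h N hN
  have h2 : {p : k[X] × k[X] | Pool.Agent.N874.PP.Crv N p.1 p.2 ∧
      Pool.Agent.N874.PM.GoodM (M := M) R p} ⊆
      {p ∈ Curves k N | Finite (Pt (curve M p) M) ∧ Odd (Nat.card (Pt (curve M p) M)) ∧
          ShaTwoZero R (curve M p)} := by
    rintro p ⟨hp, hd, hf, hsha⟩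
    have hf' : Finite (Pt (curve M p) M) := hf
    exact ⟨(hcrv N p.1 p.2).1 hp, hf, Pool.Agent.N874.PP.odd_card (G := Pt (curve M p) M) hd, hsha⟩
  have h3 := Set.ncard_le_ncard h2 ((hfin N).subset fun p hp => hp.1)
  have h3' : (({p : k[X] × k[X] | Pool.Agent.N874.PP.Crv N p.1 p.2 ∧
      Pool.Agent.N874.PM.GoodM (M := M) R p}).ncard : ℝ) ≤
      (({p ∈ Curves k N | Finite (Pt (curve M p) M) ∧ Odd (Nat.card (Pt (curve M p) M)) ∧
          ShaTwoZero R (curve M p)}).ncard : ℝ) := by exact_mod_cast h3
  have h4 : ((Curves k N).ncard : ℝ) ≤ (Nat.card k : ℝ) ^ (10 * N + 2) := by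
    rw [hset]
    exact_mod_cast Pool.Agent.N874.PP.crv_card (k := k) N
  have h5 := Set.ncard_le_ncard (fun p hp => hp.1 : {p ∈ Curves k N | Finite (Pt (curve M p) M) ∧
      Odd (Nat.card (Pt (curve M p) M)) ∧ ShaTwoZero R (curve M p)} ⊆ Curves k N) (hfin N)
  have h6' : (0 : ℝ) < (({p ∈ Curves k N | Finite (Pt (curve M p) M) ∧
      Odd (Nat.card (Pt (curve M p) M)) ∧ ShaTwoZero R (curve M p)}).ncard : ℝ) :=
    lt_of_lt_of_le (by positivity) (h1.trans h3')
  refine ⟨lt_of_lt_of_le (by exact_mod_cast h6') h5, ?_⟩
  calc c / (Nat.card k : ℝ) ^ 2 * ((Curves k N).ncard : ℝ)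
      ≤ c / (Nat.card k : ℝ) ^ 2 * (Nat.card k : ℝ) ^ (10 * N + 2) := by gcongr
    _ = c * (Nat.card k : ℝ) ^ (10 * N) := by
      rw [pow_add]
      field_simp
    _ ≤ _ := h1.trans h3'

end Pool.Agent.Results.MP_9faec4_nt.PositiveProportionTwoExtensions
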