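import Pool.Agent.N863.PE.KRel
import Pool.Agent.N863.PE.Pen
import Pool.Agent.N863.PE.Exf
import Pool.Agent.N863.PE.Ord

/-!
# Tate's form of the Birch–Swinnerton-Dyer conjecture: the function fields of products of curves

Let `K` be an arbitrary finitely generated field of characteristic zero, and let `e = trdeg K`.  Let
`E : Y² = F₀(X)` be an elliptic curve over `K`, where `F₀` is a monic separable cubic polynomial, and let
`C_i : y² = F_i(x)`, for `i < r`, be hyperelliptic curves over `K` of arbitrary genera, where `F_i` is monic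
and separable of odd degree.  Let `K_i = K(x_i, y_i)` be the function field of `C_i` and let
`L = K(x_1, y_1, ..., x_r, y_r)` be the function field of `C_1 × ... × C_r`.

* The rank law: `rank E(L) + r rank E(K) = rank E(K) + ∑ rank E(K_i)`.
* The law of the Euler products: let `Φ_L`, `Φ_0`, `Φ_i` be the Euler products `Φ_1` of `E` over arbitrary models
  over `L`, `K`, `K_i`.  Then `Φ_L(s + r) Φ_0(s) ^ r = H(s) Φ_0(s) ∏_i Φ_i(s + 1)`, where `H` is analytic and has
  no zeros for `Re s > e + 1/2`.  The centre `s = trdeg + 1` of each of the Euler products corresponds to the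
  point `s = e + 1` of this relation, and the domain `Re s > e + 1/2` contains the strip, in which the zeros and
  the poles do not depend on the models.
* Hence, for each domain `U` of the continuation, Tate's conjecture (Q1) for `E` over `K` and over all the `K_i`
  implies Q1 for `E` over `L`; and Q1 for `E` over `K`, `L` and all the `K_i` but one implies Q1 for the last one.
-/

set_option autoImplicit false

namespace Pool.Agent.Results.MP_9faec4_nt.ProductAdditivity

open Polynomial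

/-- The curve `Y² = X³ + F_2 X² + F_1 X + F_0`, where the `F_i` are the coefficients of `F`. -/
def weierstrass {K : Type} [Field K] (F : K[X]) : WeierstrassCurve K :=
  ⟨0, F.coeff 2, 0, F.coeff 1, F.coeff 0⟩

/-- `L = K(x_1, y_1, ..., x_r, y_r)` is the function field of the product of the curves
`y_i² = F_i(x_i)`. -/
structure IsFunctionField {K L : Type} [Field K] [Field L] [Algebra K L] {r : ℕ} (F : Fin r → K[X])
    (x y : Fin r → L) : Prop where
  indep : AlgebraicIndependent K x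
  curve : ∀ i, y i ^ 2 = aeval (x i) (F i)
  gen : IntermediateField.adjoin K (Set.range x ∪ Set.range y) = ⊤

/-- The number of the points `(x, y)` of the affine curve `y² = g(x)` over the algebraic closure of the field
`k` with `x ^ n = x` and `y ^ n = y`: if `k` has `q` elements and `n = q ^ j`, these are the points over the
extension of `k` of degree `j`. -/
noncomputable def points (k : Type) [Field k] (g : k[X]) (n : ℕ) : ℕ :=
  Nat.card {P : AlgebraicClosure k × AlgebraicClosure k //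
    P.1 ^ n = P.1 ∧ P.2 ^ n = P.2 ∧ P.2 ^ 2 = aeval P.1 g}

/-- The norm of a closed point: the number of the elements of the residue field. -/
noncomputable def norm {R : Type} [CommRing R] (y : MaximalSpectrum R) : ℕ := Nat.card (R ⧸ y.asIdeal)

/-- The trace on `H¹` of the `j`-th power of the Frobenius of the fibre of the curve `Y² = G(X)`: the number
`N(y) ^ j - #(affine points of the fibre over the extension of degree j)`. -/
noncomputable def trace {R : Type} [CommRing R] (G : R[X]) (y : MaximalSpectrum R) (j : ℕ) : ℝ :=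
  letI : Field (R ⧸ y.asIdeal) := Ideal.Quotient.field y.asIdeal
  ((norm y ^ j : ℕ) : ℝ) - points (R ⧸ y.asIdeal) (G.map (Ideal.Quotient.mk y.asIdeal)) (norm y ^ j)

/-- The local factor `det(1 - Frob_y T | H¹)⁻¹ = exp (∑_{j ≥ 1} t_j T ^ j / j)`. -/
noncomputable def factor {R : Type} [CommRing R] (G : R[X]) (y : MaximalSpectrum R) (T : ℂ) : ℂ :=
  Complex.exp (∑' j : ℕ, (trace G y (j + 1) : ℂ) / ((j + 1 : ℕ) : ℂ) * T ^ (j + 1))

/-- A model of the curve `Y² = F(X)` over the finitely generated field `K`: an integral domain `R`, finitely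
generated over `ℤ` and with the field of fractions `K`, a monic polynomial `G` over `R` which gives `F`, and a
nonzero element `N` of `R`.  The base of the model is the open subscheme `N ≠ 0` of `Spec R`. -/
structure Model (K : Type) [Field K] (F : K[X]) : Type 1 where
  R : Type
  [ring : CommRing R]
  [domain : IsDomain R]
  [finiteType : Algebra.FiniteType ℤ R]
  [algebra : Algebra R K]
  [fractions : IsFractionRing R K]
  G : R[X]
  monic : G.Monic
  eq : G.map (algebraMap R K) = F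
  N : R
  ne : N ≠ 0

attribute [instance] Model.ring Model.domain Model.finiteType Model.algebra Model.fractions

/-- The Euler product of the model converges absolutely to `Φ` for `Re s > n + 1/2`. -/
def Model.IsEulerProduct {K : Type} [Field K] {F : K[X]} (m : Model K F) (n : ℕ) (Φ : ℂ → ℂ) : Prop :=
  ∀ s : ℂ, (n : ℝ) + 1 / 2 < s.re →
    HasProd (fun y : {y : MaximalSpectrum m.R // m.N ∉ y.asIdeal} =>
      factor m.G y.1 ((norm y.1 : ℂ) ^ (-s))) (Φ s)

open scoped Classical in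
/-- The rank of the group of the points over `K` of the elliptic curve `Y² = F(X)`. -/
noncomputable def pointRank (K : Type) [Field K] (F : K[X]) : Cardinal.{0} :=
  Module.rank ℤ (weierstrass F).toAffine.Point

/-- Tate's conjecture (Q1) for the elliptic curve `Y² = F(X)` over `K`, where `n = trdeg K + 1`: the rank is `ρ`,
and for each model the Euler product continues to a function which is meromorphic on the domain `n + U` and has
at `s = n` the order of vanishing `ρ`. -/
structure TateHolds (K : Type) [Field K] (F : K[X]) (n : ℕ) (U : Set ℂ) (ρ : ℕ) : Prop where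
  rank : pointRank K F = ρ
  euler : ∀ m : Model K F, ∃ Φ : ℂ → ℂ, m.IsEulerProduct n Φ ∧
    MeromorphicOn Φ {s : ℂ | s - n ∈ U} ∧ meromorphicOrderAt Φ (n : ℂ) = ((ρ : ℤ) : WithTop ℤ)

/-- The function field `K_i = K(x_i, y_i)` of the curve `C_i`. -/
abbrev CurveField (K : Type) [Field K] {L : Type} [Field L] [Algebra K L] {r : ℕ} (x y : Fin r → L)
    (i : Fin r) : Type := IntermediateField.adjoin K {x i, y i}

section
variable {K : Type} [Field K] (F₀ : K[X]) {L : Type} [Field L] [Algebra K L] {r : ℕ} (x y : Fin r → L)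

/-- The rank of the group of the points over the extension `K'` of `K` of the elliptic curve `Y² = F₀(X)`. -/
noncomputable def rankOver (K' : Type) [Field K'] [Algebra K K'] : Cardinal.{0} :=
  pointRank K' (F₀.map (algebraMap K K'))

/-- The models of the curve `Y² = F₀(X)` over the extension `K'` of `K`. -/
abbrev ModelOver (K' : Type) [Field K'] [Algebra K K'] : Type 1 := Model K' (F₀.map (algebraMap K K'))

/-- Tate's conjecture (Q1) for the elliptic curve `Y² = F₀(X)` over the extension `K'` of `K`. -/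
def TateOver (K' : Type) [Field K'] [Algebra K K'] (n : ℕ) (U : Set ℂ) (ρ : ℕ) : Prop :=
  TateHolds K' (F₀.map (algebraMap K K')) n U ρ

/-- The rank law: `rank E(L) + r rank E(K) = rank E(K) + ∑ rank E(K_i)`. -/
def RankLaw : Prop :=
  rankOver F₀ L + (r : Cardinal.{0}) * pointRank K F₀ =
    pointRank K F₀ + ∑ i, rankOver F₀ (CurveField K x y i)

/-- The law of the Euler products, for all models. -/
def EulerLaw (e : ℕ) : Prop :=
  ∀ (mL : ModelOver F₀ L) (m : Model K F₀) (mi : ∀ i, ModelOver F₀ (CurveField K x y i)),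
    ∃ (ΦL Φ₀ : ℂ → ℂ) (Φ : Fin r → ℂ → ℂ) (H : ℂ → ℂ),
      mL.IsEulerProduct (e + r + 1) ΦL ∧ m.IsEulerProduct (e + 1) Φ₀ ∧
      (∀ i, (mi i).IsEulerProduct (e + 2) (Φ i)) ∧
      (∀ s, ΦL s ≠ 0) ∧ (∀ s, Φ₀ s ≠ 0) ∧ (∀ i s, Φ i s ≠ 0) ∧
      DifferentiableOn ℂ H {s : ℂ | (e : ℝ) + 1 / 2 < s.re} ∧ (∀ s, H s ≠ 0) ∧
      ∀ s : ℂ, (e : ℝ) + 3 / 2 < s.re → ΦL (s + r) * Φ₀ s ^ r = H s * Φ₀ s * ∏ i, Φ i (s + 1)

/-- Tate's conjecture over all the `K_i` implies Tate's conjecture over `L`. -/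
def FromCurves (e : ℕ) (U : Set ℂ) (ρ₀ : ℕ) : Prop :=
  ∀ ρ : Fin r → ℕ, (∀ i, TateOver F₀ (CurveField K x y i) (e + 2) U (ρ i)) →
    ∃ ρL : ℕ, ρL + r * ρ₀ = ρ₀ + ∑ i, ρ i ∧ TateOver F₀ L (e + r + 1) U ρL

/-- Tate's conjecture over `L` and over all the `K_i` but one implies Tate's conjecture over the last one. -/
def ToCurve (e : ℕ) (U : Set ℂ) : Prop :=
  ∀ (i₀ : Fin r) (ρL : ℕ) (ρ : Fin r → ℕ), TateOver F₀ L (e + r + 1) U ρL →
    (∀ i, i ≠ i₀ → TateOver F₀ (CurveField K x y i) (e + 2) U (ρ i)) →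
    ∃ ρ' : ℕ, TateOver F₀ (CurveField K x y i₀) (e + 2) U ρ'

end

/-- the model for the helper files -/
noncomputable def Model.toMdl {K : Type} [Field K] [CharZero K] {F : K[X]} (m : Model K F) (hodd : Odd F.natDegree)
    {e : ℕ} (he : Algebra.trdeg ℚ K ≤ e) : Pool.Agent.N863.PE.Mdl e where
  R := m.R
  G := m.G
  N := m.N
  monic := m.monic
  odd := by
    have h := m.eq
    rw [← h, m.monic.natDegree_map] at hodd
    exact hodd
  C := (Pool.Agent.R410.BS.hom_le (R := m.R) (K := K) (IsFractionRing.injective m.R K) he).choose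
  hC := (Pool.Agent.R410.BS.hom_le (R := m.R) (K := K)
    (IsFractionRing.injective m.R K) he).choose_spec.1
  bd := (Pool.Agent.R410.BS.hom_le (R := m.R) (K := K)
    (IsFractionRing.injective m.R K) he).choose_spec.2

theorem Model.euler {K : Type} [Field K] [CharZero K] {F : K[X]} (m : Model K F) (hodd : Odd F.natDegree)
    {e n : ℕ} (he : Algebra.trdeg ℚ K ≤ e) (hn : n = e + 1) :
    m.IsEulerProduct n (m.toMdl hodd he).L := by
  intro s hs
  exact (m.toMdl hodd he).hasProd (s := s) (by rw [hn] at hs; push_cast at hs; linarith)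

theorem exists_model {K : Type} [Field K] (hK : ∃ S : Finset K, Subfield.closure (S : Set K) = ⊤)
    {F : K[X]} (hF : F.Monic) : Nonempty (Model K F) := by
  classical
  obtain ⟨A, hA, hft, hfr⟩ := Pool.Agent.R410.BA.exists_ring hK F.coeffs
  obtain ⟨g, hg, hgm, -⟩ := Pool.Agent.R410.BA.lift1 (A := A) (p := F) (fun t ht => hA t ht) hF
  exact ⟨{ R := A, G := g, monic := hgm, eq := hg, N := 1, ne := one_ne_zero }⟩

theorem weierstrass_map {K L : Type} [Field K] [Field L] [Algebra K L] (F : K[X]) :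
    weierstrass (F.map (algebraMap K L)) = (weierstrass F).map (algebraMap K L) := by
  unfold weierstrass
  ext
  · show (0 : L) = algebraMap K L 0
    rw [map_zero]
  · show (F.map (algebraMap K L)).coeff 2 = _
    rw [coeff_map]
    rfl
  · show (0 : L) = algebraMap K L 0
    rw [map_zero]
  · show (F.map (algebraMap K L)).coeff 1 = _
    rw [coeff_map]
    rfl
  · show (F.map (algebraMap K L)).coeff 0 = _
    rw [coeff_map]
    rfl

section
variable {K : Type} [Field K] [CharZero K] {F₀ : K[X]} {L : Type} [Field L] [CharZero L] [Algebra K L] {r : ℕ}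
  {F : Fin r → K[X]} {x y : Fin r → L} {e : ℕ}

/-- The law of the Euler products. -/
theorem euler_law (hK : ∃ S : Finset K, Subfield.closure (S : Set K) = ⊤) (he : Algebra.trdeg ℚ K = e)
    (h₀ : F₀.Monic) (hodd : Odd F₀.natDegree)
    (hF : ∀ i, (F i).Monic ∧ Odd (F i).natDegree ∧ (F i).Separable) (hfun : IsFunctionField F x y)
    (hL : Algebra.trdeg ℚ L = (e + r : ℕ))
    (hi : ∀ i, Algebra.trdeg ℚ (IntermediateField.adjoin K {x i, y i}) = (e + 1 : ℕ))
    (mL : Model L (F₀.map (algebraMap K L))) (m : Model K F₀)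
    (mi : ∀ i, Model (IntermediateField.adjoin K {x i, y i})
      (F₀.map (algebraMap K (IntermediateField.adjoin K {x i, y i})))) :
    ∃ (ΦL Φ₀ : ℂ → ℂ) (Φ : Fin r → ℂ → ℂ) (H : ℂ → ℂ),
      mL.IsEulerProduct (e + r + 1) ΦL ∧ m.IsEulerProduct (e + 1) Φ₀ ∧
      (∀ i, (mi i).IsEulerProduct (e + 2) (Φ i)) ∧
      (∀ s, ΦL s ≠ 0) ∧ (∀ s, Φ₀ s ≠ 0) ∧ (∀ i s, Φ i s ≠ 0) ∧
      DifferentiableOn ℂ H {s : ℂ | (e : ℝ) + 1 / 2 < s.re} ∧ (∀ s, H s ≠ 0) ∧
      ∀ s : ℂ, (e : ℝ) + 3 / 2 < s.re → ΦL (s + r) * Φ₀ s ^ r = H s * Φ₀ s * ∏ i, Φ i (s + 1) := by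
  have hcK : ∀ i, CharZero (IntermediateField.adjoin K {x i, y i}) := fun i =>
    charZero_of_injective_algebraMap (algebraMap K _).injective
  have hoL : Odd (F₀.map (algebraMap K L)).natDegree := by rw [natDegree_map]; exact hodd
  have hoi : ∀ i, Odd (F₀.map (algebraMap K (IntermediateField.adjoin K {x i, y i}))).natDegree :=
    fun i => by rw [natDegree_map]; exact hodd
  let nL := mL.toMdl hoL hL.le
  let n0 := m.toMdl hodd he.le
  let ni := fun i => (mi i).toMdl (hoi i) (hi i).le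
  let _ : IsDomain nL.R := mL.domain
  let _ : IsDomain n0.R := m.domain
  let _ : ∀ i, IsDomain (ni i).R := fun i => (mi i).domain
  let _ : Algebra nL.R L := mL.algebra
  let _ : Algebra n0.R K := m.algebra
  let _ : ∀ i, Algebra (ni i).R (IntermediateField.adjoin K {x i, y i}) := fun i => (mi i).algebra
  have _ : IsFractionRing nL.R L := mL.fractions
  have _ : IsFractionRing n0.R K := m.fractions
  have _ : ∀ i, IsFractionRing (ni i).R (IntermediateField.adjoin K {x i, y i}) :=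
    fun i => (mi i).fractions
  obtain ⟨C, M, hC, hM, hrel⟩ := Pool.Agent.N863.PE.rel_all hK he hfun.indep (fun i => (hF i).1)
    (fun i => (hF i).2.1) (fun i => (hF i).2.2) hfun.curve hfun.gen h₀ hodd nL n0 ni mL.eq mL.ne m.eq
    m.ne (fun i => (mi i).eq) (fun i => (mi i).ne)
  obtain ⟨H, hH, hH0, hrel'⟩ := Pool.Agent.N863.PE.an_law nL n0 ni hC hM hrel
  exact ⟨nL.L, n0.L, fun i => (ni i).L, H, mL.euler hoL hL.le rfl, m.euler hodd he.le rfl,
    fun i => (mi i).euler (hoi i) (hi i).le rfl, fun s => Complex.exp_ne_zero _,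
    fun s => Complex.exp_ne_zero _, fun i s => Complex.exp_ne_zero _, hH, hH0, hrel'⟩

end

theorem pointRank_eq {K : Type} [Field K] (i : DecidableEq K) (F : K[X]) :
    pointRank K F = @Module.rank ℤ (@WeierstrassCurve.Affine.Point K _ (weierstrass F).toAffine) _
      (@AddCommGroup.toAddCommMonoid _ (@WeierstrassCurve.Affine.Point.instAddCommGroup K _
        (weierstrass F).toAffine i)) _ := by
  have h : i = fun a b => Classical.propDecidable (a = b) := Subsingleton.elim _ _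
  subst h
  rfl

theorem pointRank_map {K L : Type} [Field K] [Field L] [Algebra K L] (i : DecidableEq L) (F : K[X]) :
    pointRank L (F.map (algebraMap K L)) = @Module.rank ℤ (@WeierstrassCurve.Affine.Point L _
      ((weierstrass F).map (algebraMap K L)).toAffine) _
      (@AddCommGroup.toAddCommMonoid _ (@WeierstrassCurve.Affine.Point.instAddCommGroup L _
        ((weierstrass F).map (algebraMap K L)).toAffine i)) _ := by
  rw [pointRank_eq i, weierstrass_map]

theorem cast_law {κL : Cardinal.{0}} {r ρ₀ : ℕ} {ρ : Fin r → ℕ}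
    (h : κL + (r : Cardinal.{0}) * ρ₀ = (ρ₀ : Cardinal.{0}) + ∑ i, (ρ i : Cardinal.{0})) :
    ∃ ρL : ℕ, κL = ρL ∧ ρL + r * ρ₀ = ρ₀ + ∑ i, ρ i := by
  have hκ : κL < Cardinal.aleph0 := by
    refine lt_of_le_of_lt (b := ((ρ₀ + ∑ i, ρ i : ℕ) : Cardinal.{0})) ?_
      (Cardinal.natCast_lt_aleph0 (n := ρ₀ + ∑ i, ρ i))
    push_cast
    rw [← h]
    exact self_le_add_right _ _
  obtain ⟨k, rfl⟩ := Cardinal.lt_aleph0.1 hκ
  refine ⟨k, rfl, ?_⟩
  exact_mod_cast h

theorem cast_law' {r ρL ρ₀ : ℕ} {κ : Fin r → Cardinal.{0}} (i₀ : Fin r)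
    (h : (ρL : Cardinal.{0}) + (r : Cardinal.{0}) * ρ₀ = (ρ₀ : Cardinal.{0}) + ∑ i, κ i) :
    ∃ k : ℕ, κ i₀ = k := by
  have hle : κ i₀ ≤ (ρ₀ : Cardinal.{0}) + ∑ i, κ i :=
    (Finset.single_le_sum (f := κ) (fun i _ => bot_le) (Finset.mem_univ i₀)).trans
      (self_le_add_left _ _)
  have hκ : κ i₀ < Cardinal.aleph0 := by
    refine lt_of_le_of_lt (b := ((ρL + r * ρ₀ : ℕ) : Cardinal.{0})) ?_
      (Cardinal.natCast_lt_aleph0 (n := ρL + r * ρ₀))
    push_cast
    rw [h]
    exact hle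
  obtain ⟨k, hk⟩ := Cardinal.lt_aleph0.1 hκ
  exact ⟨k, hk⟩

section
variable {K : Type} [Field K] [CharZero K] {F₀ : K[X]} {L : Type} [Field L] [CharZero L] [Algebra K L] {r : ℕ}
  {F : Fin r → K[X]} {x y : Fin r → L} {e : ℕ}

open scoped Classical in
/-- from the curves to the product -/
theorem forward (hK : ∃ S : Finset K, Subfield.closure (S : Set K) = ⊤) (he : Algebra.trdeg ℚ K = e)
    (h₀ : F₀.Monic) (hodd : Odd F₀.natDegree)
    (hF : ∀ i, (F i).Monic ∧ Odd (F i).natDegree ∧ (F i).Separable) (hfun : IsFunctionField F x y)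
    (hL : Algebra.trdeg ℚ L = (e + r : ℕ))
    (hi : ∀ i, Algebra.trdeg ℚ (IntermediateField.adjoin K {x i, y i}) = (e + 1 : ℕ))
    (m : Model K F₀)
    (mi : ∀ i, Model (IntermediateField.adjoin K {x i, y i})
      (F₀.map (algebraMap K (IntermediateField.adjoin K {x i, y i}))))
    (hlaw : pointRank L (F₀.map (algebraMap K L)) + (r : Cardinal.{0}) * pointRank K F₀ =
      pointRank K F₀ + ∑ i, pointRank (IntermediateField.adjoin K {x i, y i})
        (F₀.map (algebraMap K (IntermediateField.adjoin K {x i, y i}))))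
    {U : Set ℂ} (h0U : (0 : ℂ) ∈ U) (hU : U ⊆ {s : ℂ | -(1 / 2) < s.re}) {ρ₀ : ℕ}
    (t0 : TateHolds K F₀ (e + 1) U ρ₀) {ρ : Fin r → ℕ}
    (ti : ∀ i, TateHolds (IntermediateField.adjoin K {x i, y i})
      (F₀.map (algebraMap K (IntermediateField.adjoin K {x i, y i}))) (e + 2) U (ρ i)) :
    ∃ ρL : ℕ, ρL + r * ρ₀ = ρ₀ + ∑ i, ρ i ∧
      TateHolds L (F₀.map (algebraMap K L)) (e + r + 1) U ρL := by
  rw [t0.rank, Finset.sum_congr rfl fun i _ => (ti i).rank] at hlaw
  obtain ⟨ρL, h1, h2⟩ := cast_law hlaw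
  refine ⟨ρL, h2, h1, fun mL => ?_⟩
  obtain ⟨ΦL, Φ₀, Φ, H, p1, p2, p3, p4, p5, p6, p7, p8, p9⟩ :=
    euler_law hK he h₀ hodd hF hfun hL hi mL m mi
  obtain ⟨Ψ₀, q1, q2, q3⟩ := t0.euler m
  choose Ψ u1 u2 u3 using fun i => (ti i).euler (mi i)
  have ho : IsOpen {s : ℂ | (e : ℝ) + 1 / 2 < s.re} := isOpen_lt continuous_const Complex.continuous_re
  have hHan : ∀ s : ℂ, (e : ℝ) + 1 / 2 < s.re → AnalyticAt ℂ H s := fun s hs =>
    p7.analyticAt (ho.mem_nhds hs)
  refine ⟨fun s => H (s - r) * Ψ₀ (s - r) * (Ψ₀ (s - r) ^ r)⁻¹ * ∏ i, Ψ i (s + (1 - r)), ?_, ?_, ?_⟩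
  · intro s hs
    have hs' : (e : ℝ) + 3 / 2 < (s - r).re := by
      rw [Complex.sub_re, Complex.natCast_re]
      push_cast at hs
      linarith
    have hs0 : ((e + 1 : ℕ) : ℝ) + 1 / 2 < (s - r).re := by
      push_cast
      linarith
    have hs1 : ((e + 2 : ℕ) : ℝ) + 1 / 2 < (s + (1 - r)).re := by
      rw [Complex.add_re, Complex.sub_re, Complex.one_re, Complex.natCast_re]
      push_cast at hs ⊢
      linarith
    have e0 : Ψ₀ (s - r) = Φ₀ (s - r) := (q1 _ hs0).unique (p2 _ hs0)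
    have ei : ∀ i, Ψ i (s + (1 - r)) = Φ i (s + (1 - r)) := fun i => (u1 i _ hs1).unique (p3 i _ hs1)
    have h3 := p9 (s - r) hs'
    rw [sub_add_cancel, show s - (r : ℂ) + 1 = s + (1 - r) by ring] at h3
    have h5 : Φ₀ (s - r) ^ r ≠ 0 := pow_ne_zero _ (p5 _)
    have h4 : H (s - r) * Ψ₀ (s - r) * (Ψ₀ (s - r) ^ r)⁻¹ * ∏ i, Ψ i (s + (1 - r)) = ΦL s := by
      rw [e0, Finset.prod_congr rfl fun i _ => ei i]
      field_simp
      rw [← h3]
      ring
    show HasProd _ (H (s - r) * Ψ₀ (s - r) * (Ψ₀ (s - r) ^ r)⁻¹ * ∏ i, Ψ i (s + (1 - r)))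
    rw [h4]
    exact p1 s hs
  · intro s hs
    have hsU : s - ((e + r + 1 : ℕ) : ℂ) ∈ U := hs
    have hsr : (e : ℝ) + 1 / 2 < (s - r).re := by
      have h := hU hsU
      rw [Set.mem_ofPred_eq, Complex.sub_re, Complex.natCast_re] at h
      rw [Complex.sub_re, Complex.natCast_re]
      push_cast at h
      linarith
    have a1 : MeromorphicAt (fun s => H (s - r)) s := by
      rw [meromorphicAt_fun_comp_sub_const_iff_meromorphicAt]
      exact (hHan _ hsr).meromorphicAt
    have a2 : MeromorphicAt (fun s => Ψ₀ (s - r)) s := by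
      rw [meromorphicAt_fun_comp_sub_const_iff_meromorphicAt]
      refine q2 _ ?_
      show s - (r : ℂ) - ((e + 1 : ℕ) : ℂ) ∈ U
      rw [show s - (r : ℂ) - ((e + 1 : ℕ) : ℂ) = s - ((e + r + 1 : ℕ) : ℂ) by push_cast; ring]
      exact hsU
    have a3 : ∀ i, MeromorphicAt (fun s => Ψ i (s + (1 - r))) s := by
      intro i
      have h : MeromorphicAt (fun s => Ψ i (s - (r - 1))) s := by
        rw [meromorphicAt_fun_comp_sub_const_iff_meromorphicAt]
        refine u2 i _ ?_
        show s - ((r : ℂ) - 1) - ((e + 2 : ℕ) : ℂ) ∈ U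
        rw [show s - ((r : ℂ) - 1) - ((e + 2 : ℕ) : ℂ) = s - ((e + r + 1 : ℕ) : ℂ) by
          push_cast; ring]
        exact hsU
      have e3 : (fun s : ℂ => Ψ i (s + (1 - r))) = fun s => Ψ i (s - (r - 1)) := by
        funext t
        rw [show t + (1 - (r : ℂ)) = t - (r - 1) by ring]
      rw [e3]
      exact h
    exact (((a1.mul a2).mul (a2.pow r).inv).mul (MeromorphicAt.fun_prod fun i _ => a3 i))
  · have hz : (((e + r + 1 : ℕ) : ℂ) - r) = ((e + 1 : ℕ) : ℂ) := by push_cast; ring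
    have hz' : (((e + r + 1 : ℕ) : ℂ) + (1 - r)) = ((e + 2 : ℕ) : ℂ) := by push_cast; ring
    have o1 : Pool.Agent.N863.PE.Od (fun s => H (s - r)) ((e + r + 1 : ℕ) : ℂ) 0 := by
      apply Pool.Agent.N863.PE.Od.shift
      rw [hz]
      refine Pool.Agent.N863.PE.Od.of_ne (hHan _ ?_) (p8 _)
      rw [Complex.natCast_re]
      push_cast
      linarith
    have o2 : Pool.Agent.N863.PE.Od (fun s => Ψ₀ (s - r)) ((e + r + 1 : ℕ) : ℂ) ρ₀ := by
      apply Pool.Agent.N863.PE.Od.shift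
      rw [hz]
      refine ⟨q2 _ ?_, q3⟩
      show ((e + 1 : ℕ) : ℂ) - ((e + 1 : ℕ) : ℂ) ∈ U
      rw [sub_self]
      exact h0U
    have o3 : ∀ i, Pool.Agent.N863.PE.Od (fun s => Ψ i (s + (1 - r))) ((e + r + 1 : ℕ) : ℂ) (ρ i) := by
      intro i
      apply Pool.Agent.N863.PE.Od.shift'
      rw [hz']
      refine ⟨u2 i _ ?_, u3 i⟩
      show ((e + 2 : ℕ) : ℂ) - ((e + 2 : ℕ) : ℂ) ∈ U
      rw [sub_self]
      exact h0U
    have o4 := ((o1.mul o2).mul (o2.pow r).inv).mul (Pool.Agent.N863.PE.Od.prod Finset.univ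
      fun i _ => o3 i)
    rw [o4.ord]
    congr 1
    have h5 : (ρL : ℤ) + r * ρ₀ = ρ₀ + ∑ i, (ρ i : ℤ) := by exact_mod_cast h2
    linarith

open scoped Classical in
/-- from the product and all the curves but one to this curve -/
theorem backward (hK : ∃ S : Finset K, Subfield.closure (S : Set K) = ⊤) (he : Algebra.trdeg ℚ K = e)
    (h₀ : F₀.Monic) (hodd : Odd F₀.natDegree)
    (hF : ∀ i, (F i).Monic ∧ Odd (F i).natDegree ∧ (F i).Separable) (hfun : IsFunctionField F x y)
    (hL : Algebra.trdeg ℚ L = (e + r : ℕ))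
    (hi : ∀ i, Algebra.trdeg ℚ (IntermediateField.adjoin K {x i, y i}) = (e + 1 : ℕ))
    (m : Model K F₀) (mL : Model L (F₀.map (algebraMap K L)))
    (mi : ∀ i, Model (IntermediateField.adjoin K {x i, y i})
      (F₀.map (algebraMap K (IntermediateField.adjoin K {x i, y i}))))
    (hlaw : pointRank L (F₀.map (algebraMap K L)) + (r : Cardinal.{0}) * pointRank K F₀ =
      pointRank K F₀ + ∑ i, pointRank (IntermediateField.adjoin K {x i, y i})
        (F₀.map (algebraMap K (IntermediateField.adjoin K {x i, y i}))))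
    {U : Set ℂ} (h0U : (0 : ℂ) ∈ U) (hU : U ⊆ {s : ℂ | -(1 / 2) < s.re}) {ρ₀ ρL : ℕ}
    (t0 : TateHolds K F₀ (e + 1) U ρ₀)
    (tL : TateHolds L (F₀.map (algebraMap K L)) (e + r + 1) U ρL) {i₀ : Fin r} {ρ : Fin r → ℕ}
    (ti : ∀ i, i ≠ i₀ → TateHolds (IntermediateField.adjoin K {x i, y i})
      (F₀.map (algebraMap K (IntermediateField.adjoin K {x i, y i}))) (e + 2) U (ρ i)) :
    ∃ ρ' : ℕ, TateHolds (IntermediateField.adjoin K {x i₀, y i₀})
      (F₀.map (algebraMap K (IntermediateField.adjoin K {x i₀, y i₀}))) (e + 2) U ρ' := by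
  rw [t0.rank, tL.rank] at hlaw
  obtain ⟨k, hk⟩ := cast_law' i₀ hlaw
  refine ⟨k, hk, fun mi₀ => ?_⟩
  obtain ⟨ni, hni⟩ : ∃ ni : ∀ i, Model (IntermediateField.adjoin K {x i, y i})
      (F₀.map (algebraMap K (IntermediateField.adjoin K {x i, y i}))), ni i₀ = mi₀ :=
    ⟨Function.update mi i₀ mi₀, Function.update_self _ _ _⟩
  obtain ⟨ΦL, Φ₀, Φ, H, p1, p2, p3, p4, p5, p6, p7, p8, p9⟩ :=
    euler_law hK he h₀ hodd hF hfun hL hi mL m ni
  obtain ⟨Ψ₀, q1, q2, q3⟩ := t0.euler m
  obtain ⟨ΨL, v1, v2, v3⟩ := tL.euler mL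
  choose! Ψ u1 u2 u3 using fun i (h : i ≠ i₀) => (ti i h).euler (ni i)
  have ho : IsOpen {s : ℂ | (e : ℝ) + 1 / 2 < s.re} := isOpen_lt continuous_const Complex.continuous_re
  have hHan : ∀ s : ℂ, (e : ℝ) + 1 / 2 < s.re → AnalyticAt ℂ H s := fun s hs =>
    p7.analyticAt (ho.mem_nhds hs)
  refine ⟨fun s => ΨL (s + (r - 1)) * Ψ₀ (s - 1) ^ r * (H (s - 1) * Ψ₀ (s - 1))⁻¹ *
    (∏ i ∈ Finset.univ.erase i₀, Ψ i s)⁻¹, ?_, ?_, ?_⟩
  · intro s hs
    have hs' : (e : ℝ) + 3 / 2 < (s - 1).re := by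
      rw [Complex.sub_re, Complex.one_re]
      push_cast at hs
      linarith
    have hs0 : ((e + 1 : ℕ) : ℝ) + 1 / 2 < (s - 1).re := by
      push_cast
      linarith
    have hs1 : ((e + r + 1 : ℕ) : ℝ) + 1 / 2 < (s + (r - 1)).re := by
      rw [Complex.add_re, Complex.sub_re, Complex.one_re, Complex.natCast_re]
      push_cast at hs ⊢
      linarith
    have e0 : Ψ₀ (s - 1) = Φ₀ (s - 1) := (q1 _ hs0).unique (p2 _ hs0)
    have eL : ΨL (s + (r - 1)) = ΦL (s + (r - 1)) := (v1 _ hs1).unique (p1 _ hs1)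
    have ei : ∀ i ∈ Finset.univ.erase i₀, Ψ i s = Φ i s := fun i hi =>
      (u1 i (Finset.ne_of_mem_erase hi) _ hs).unique (p3 i _ hs)
    have h3 := p9 (s - 1) hs'
    rw [show s - 1 + (r : ℂ) = s + (r - 1) by ring, sub_add_cancel,
      ← Finset.mul_prod_erase Finset.univ _ (Finset.mem_univ i₀)] at h3
    have h6 : ∏ i ∈ Finset.univ.erase i₀, Φ i s ≠ 0 := Finset.prod_ne_zero_iff.2 fun i _ => p6 i s
    have h7 : H (s - 1) ≠ 0 := p8 _
    have h8 : Φ₀ (s - 1) ≠ 0 := p5 _
    have h4 : ΨL (s + (r - 1)) * Ψ₀ (s - 1) ^ r * (H (s - 1) * Ψ₀ (s - 1))⁻¹ *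
        (∏ i ∈ Finset.univ.erase i₀, Ψ i s)⁻¹ = Φ i₀ s := by
      rw [e0, eL, Finset.prod_congr rfl ei, h3]
      field_simp
    show HasProd _ (ΨL (s + (r - 1)) * Ψ₀ (s - 1) ^ r * (H (s - 1) * Ψ₀ (s - 1))⁻¹ *
        (∏ i ∈ Finset.univ.erase i₀, Ψ i s)⁻¹)
    rw [h4]
    have h9 := p3 i₀ s hs
    rw [hni] at h9
    exact h9
  · intro s hs
    have hsU : s - ((e + 2 : ℕ) : ℂ) ∈ U := hs
    have hsr : (e : ℝ) + 1 / 2 < (s - 1).re := by
      have h := hU hsU
      rw [Set.mem_ofPred_eq, Complex.sub_re, Complex.natCast_re] at h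
      rw [Complex.sub_re, Complex.one_re]
      push_cast at h
      linarith
    have a1 : MeromorphicAt (fun s => H (s - 1)) s := by
      rw [meromorphicAt_fun_comp_sub_const_iff_meromorphicAt]
      exact (hHan _ hsr).meromorphicAt
    have a2 : MeromorphicAt (fun s => Ψ₀ (s - 1)) s := by
      rw [meromorphicAt_fun_comp_sub_const_iff_meromorphicAt]
      refine q2 _ ?_
      show s - 1 - ((e + 1 : ℕ) : ℂ) ∈ U
      rw [show s - 1 - ((e + 1 : ℕ) : ℂ) = s - ((e + 2 : ℕ) : ℂ) by push_cast; ring]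
      exact hsU
    have a3 : MeromorphicAt (fun s => ΨL (s + (r - 1))) s := by
      have h : MeromorphicAt (fun s => ΨL (s - (1 - r))) s := by
        rw [meromorphicAt_fun_comp_sub_const_iff_meromorphicAt]
        refine v2 _ ?_
        show s - (1 - (r : ℂ)) - ((e + r + 1 : ℕ) : ℂ) ∈ U
        rw [show s - (1 - (r : ℂ)) - ((e + r + 1 : ℕ) : ℂ) = s - ((e + 2 : ℕ) : ℂ) by
          push_cast; ring]
        exact hsU
      have e3 : (fun s : ℂ => ΨL (s + (r - 1))) = fun s => ΨL (s - (1 - r)) := by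
        funext t
        rw [show t + ((r : ℂ) - 1) = t - (1 - r) by ring]
      rw [e3]
      exact h
    have a4 : ∀ i ∈ Finset.univ.erase i₀, MeromorphicAt (Ψ i) s := fun i hi =>
      u2 i (Finset.ne_of_mem_erase hi) _ hs
    exact (((a3.mul (a2.pow r)).mul (a1.mul a2).inv).mul (MeromorphicAt.fun_prod a4).inv)
  · have hz : (((e + 2 : ℕ) : ℂ) - 1) = ((e + 1 : ℕ) : ℂ) := by push_cast; ring
    have hz' : (((e + 2 : ℕ) : ℂ) + (r - 1)) = ((e + r + 1 : ℕ) : ℂ) := by push_cast; ring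
    have o1 : Pool.Agent.N863.PE.Od (fun s => H (s - 1)) ((e + 2 : ℕ) : ℂ) 0 := by
      apply Pool.Agent.N863.PE.Od.shift
      rw [hz]
      refine Pool.Agent.N863.PE.Od.of_ne (hHan _ ?_) (p8 _)
      rw [Complex.natCast_re]
      push_cast
      linarith
    have o2 : Pool.Agent.N863.PE.Od (fun s => Ψ₀ (s - 1)) ((e + 2 : ℕ) : ℂ) ρ₀ := by
      apply Pool.Agent.N863.PE.Od.shift
      rw [hz]
      refine ⟨q2 _ ?_, q3⟩
      show ((e + 1 : ℕ) : ℂ) - ((e + 1 : ℕ) : ℂ) ∈ U
      rw [sub_self]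
      exact h0U
    have o3 : Pool.Agent.N863.PE.Od (fun s => ΨL (s + (r - 1))) ((e + 2 : ℕ) : ℂ) ρL := by
      apply Pool.Agent.N863.PE.Od.shift'
      rw [hz']
      refine ⟨v2 _ ?_, v3⟩
      show ((e + r + 1 : ℕ) : ℂ) - ((e + r + 1 : ℕ) : ℂ) ∈ U
      rw [sub_self]
      exact h0U
    have o4 : ∀ i ∈ Finset.univ.erase i₀, Pool.Agent.N863.PE.Od (Ψ i) ((e + 2 : ℕ) : ℂ) (ρ i) := by
      intro i hi
      refine ⟨u2 i (Finset.ne_of_mem_erase hi) _ ?_, u3 i (Finset.ne_of_mem_erase hi)⟩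
      show ((e + 2 : ℕ) : ℂ) - ((e + 2 : ℕ) : ℂ) ∈ U
      rw [sub_self]
      exact h0U
    have o5 := ((o3.mul (o2.pow r)).mul (o1.mul o2).inv).mul
      (Pool.Agent.N863.PE.Od.prod (Finset.univ.erase i₀) o4).inv
    rw [o5.ord]
    congr 1
    have h5 : (ρL : ℤ) + r * ρ₀ = ρ₀ + (k + ∑ i ∈ Finset.univ.erase i₀, (ρ i : ℤ)) := by
      rw [← Finset.add_sum_erase Finset.univ _ (Finset.mem_univ i₀), hk,
        Finset.sum_congr rfl fun i hi => (ti i (Finset.ne_of_mem_erase hi)).rank] at hlaw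
      exact_mod_cast hlaw
    linarith

end

/-- **Tate's conjecture and the function fields of the products of curves.** -/
theorem result {K : Type} [Field K] [CharZero K]
    (hK : ∃ S : Finset K, Subfield.closure (S : Set K) = ⊤) {e : ℕ} (he : Algebra.trdeg ℚ K = e)
    {F₀ : K[X]} (h₀ : F₀.Monic) (h3 : F₀.natDegree = 3) (hs₀ : F₀.Separable)
    {r : ℕ} {F : Fin r → K[X]} (hF : ∀ i, (F i).Monic ∧ Odd (F i).natDegree ∧ (F i).Separable) :
    -- the function field exists
    (∃ (L : Type) (_ : Field L) (_ : Algebra K L) (x y : Fin r → L), IsFunctionField F x y) ∧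
    ∀ (L : Type) [Field L] [CharZero L] [Algebra K L] (x y : Fin r → L), IsFunctionField F x y →
      Algebra.trdeg ℚ L = (e + r : ℕ) ∧ (∀ i, Algebra.trdeg ℚ (CurveField K x y i) = (e + 1 : ℕ)) ∧
      (weierstrass F₀).Δ ≠ 0 ∧
      -- the rank law
      RankLaw F₀ x y ∧
      -- the models exist
      Nonempty (Model K F₀) ∧ Nonempty (ModelOver F₀ L) ∧
      (∀ i, Nonempty (ModelOver F₀ (CurveField K x y i))) ∧
      -- the law of the Euler products, for all models
      EulerLaw F₀ x y e ∧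
      -- Tate's conjecture, for each domain of the continuation
      ∀ U : Set ℂ, (0 : ℂ) ∈ U → U ⊆ {s : ℂ | -(1 / 2) < s.re} → ∀ ρ₀ : ℕ,
        TateHolds K F₀ (e + 1) U ρ₀ → FromCurves F₀ x y e U ρ₀ ∧ ToCurve F₀ x y e U := by
  classical
  have hodd : Odd F₀.natDegree := by rw [h3]; decide
  refine ⟨?_, ?_⟩
  · obtain ⟨L, i1, i2, x, y, h1, h2, h3⟩ := Pool.Agent.N863.PE.exists_ffc F
    exact ⟨L, i1, i2, x, y, h1, h2, h3⟩
  intro L _ _ _ x y hfun
  have hpos : ∀ i, 0 < (F i).natDegree := fun i => (hF i).2.1.pos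
  have hcb : Pool.Agent.N863.PE.cb (weierstrass F₀) = F₀ :=
    (Pool.Agent.R410.BA.monic_cubic _ h₀ h3).symm
  have hsE : (Pool.Agent.N863.PE.cb (weierstrass F₀)).Separable := by
    rw [hcb]
    exact hs₀
  have hΔ : (weierstrass F₀).Δ ≠ 0 := by
    rw [Pool.Agent.N863.PE.disc_eq _ rfl rfl]
    exact mul_ne_zero (by norm_num) (Pool.Agent.N863.PE.dsc_ne _ hsE)
  have hL : Algebra.trdeg ℚ L = (e + r : ℕ) := Pool.Agent.N863.PE.trdeg_rat he hfun.indep hpos
    (fun i => (hF i).2.2) hfun.curve hfun.gen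
  have hFG : Pool.Agent.R410.LW.FG L := Pool.Agent.N863.PE.fg_L hK hfun.gen
  have hi : ∀ i, Algebra.trdeg ℚ (IntermediateField.adjoin K {x i, y i}) = (e + 1 : ℕ) ∧
      Pool.Agent.R410.LW.FG (IntermediateField.adjoin K {x i, y i}) := by
    intro i
    obtain ⟨x', y', h1, h2, h3⟩ := Pool.Agent.N863.PE.one_curve hfun.indep hfun.curve i
    have hcK : CharZero (IntermediateField.adjoin K {x i, y i}) :=
      charZero_of_injective_algebraMap (algebraMap K _).injective
    exact ⟨Pool.Agent.N863.PE.trdeg_rat he h1 (f := fun _ : Fin 1 => F i) (fun _ => hpos i)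
      (fun _ => (hF i).2.2) h2 h3, Pool.Agent.N863.PE.fg_L hK h3⟩
  obtain ⟨g1, -⟩ := Pool.Agent.N863.PE.law hfun.indep hpos (fun i => (hF i).2.2) hfun.curve hfun.gen
    (weierstrass F₀) rfl rfl (Pool.Agent.N863.PE.dsc_ne _ hsE)
  have hlaw : pointRank L (F₀.map (algebraMap K L)) + (r : Cardinal.{0}) * pointRank K F₀ =
        pointRank K F₀ + ∑ i, pointRank (IntermediateField.adjoin K {x i, y i})
          (F₀.map (algebraMap K (IntermediateField.adjoin K {x i, y i}))) := by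
    rw [pointRank_eq _ F₀, pointRank_map _ F₀,
      Finset.sum_congr rfl fun i _ => pointRank_map _ F₀]
    exact g1
  obtain ⟨m⟩ := exists_model hK h₀
  obtain ⟨mL⟩ := exists_model hFG (h₀.map (algebraMap K L))
  have hmi : ∀ i, Nonempty (Model (IntermediateField.adjoin K {x i, y i})
        (F₀.map (algebraMap K (IntermediateField.adjoin K {x i, y i})))) := fun i =>
    exists_model (hi i).2 (h₀.map _)
  have mi := fun i => (hmi i).some
  refine ⟨hL, fun i => (hi i).1, hΔ, hlaw, ⟨m⟩, ⟨mL⟩, hmi, ?_, ?_⟩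
  · intro mL m mi
    exact euler_law hK he h₀ hodd hF hfun hL (fun i => (hi i).1) mL m mi
  · intro U h0U hU ρ₀ t0
    refine ⟨?_, ?_⟩
    · intro ρ ti
      exact forward hK he h₀ hodd hF hfun hL (fun i => (hi i).1) m mi hlaw h0U hU t0 ti
    · intro i₀ ρL ρ tL ti
      exact backward hK he h₀ hodd hF hfun hL (fun i => (hi i).1) m mL mi hlaw h0U hU t0 tL ti

end Pool.Agent.Results.MP_9faec4_nt.ProductAdditivity
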